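import Mathlib

/-! The restriction to the real line of an entire function with the properties of the near-critical
limits. -/

set_option autoImplicit false

namespace Pool.Agent.X135.NL

open Filter Topology

theorem not_const {G : ℂ → ℂ} (hd : Differentiable ℂ G)
    (hgrow : ∀ A B σ : ℝ, σ < 4 / 3 → ∃ w, A * Real.exp (B * ‖w‖ ^ σ) < ‖G w‖)
    {x y : ℝ} (hxy : x < y) (h : ∀ t : ℝ, x ≤ t → t ≤ y → G (t : ℂ) = G (x : ℂ)) : False := by
  have h1 : AnalyticOnNhd ℂ G Set.univ := fun z _ =>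
    hd.analyticAt z
  have h2 : AnalyticOnNhd ℂ (fun _ : ℂ => G (x : ℂ)) Set.univ := fun z _ => analyticAt_const
  have h3 : ∃ᶠ z in 𝓝[≠] (x : ℂ), G z = (fun _ : ℂ => G (x : ℂ)) z := by
    have hu : Tendsto (fun n : ℕ => ((x + (y - x) / ((n : ℝ) + 1) : ℝ) : ℂ)) atTop
        (𝓝[≠] (x : ℂ)) := by
      rw [tendsto_nhdsWithin_iff]
      constructor
      · have e : (x : ℂ) = ((x + 0 : ℝ) : ℂ) := by simp
        rw [e]
        apply (Complex.continuous_ofReal.tendsto _).comp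
        apply tendsto_const_nhds.add
        have := (tendsto_const_div_atTop_nhds_zero_nat (y - x)).comp (tendsto_add_atTop_nat 1)
        refine this.congr (fun n => ?_)
        simp
      · refine Eventually.of_forall (fun n => ?_)
        have : (0 : ℝ) < (y - x) / ((n : ℝ) + 1) := div_pos (by linarith) (by positivity)
        intro hc
        have hc' : ((x + (y - x) / ((n : ℝ) + 1) : ℝ) : ℂ) = ((x : ℝ) : ℂ) := hc
        have := Complex.ofReal_injective hc'
        linarith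
    apply hu.frequently
    refine Frequently.of_forall (fun n => ?_)
    have h4 : (0 : ℝ) < (y - x) / ((n : ℝ) + 1) := div_pos (by linarith) (by positivity)
    have h5 : (y - x) / ((n : ℝ) + 1) ≤ y - x := by
      apply div_le_self (by linarith)
      have : (0 : ℝ) ≤ n := Nat.cast_nonneg _
      linarith
    exact h _ (by linarith) (by linarith)
  have h4 := h1.eq_of_frequently_eq h2 h3
  obtain ⟨w, hw⟩ := hgrow ‖G (x : ℂ)‖ 0 1 (by norm_num)
  rw [h4] at hw
  simp at hw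

theorem real_part {c C : ℝ} (hc : 0 < c) (hC : 0 < C) {G : ℂ → ℂ} (hd : Differentiable ℂ G)
    (hdual : ∀ w, G w + G (-w) = 1)
    (hgrow : ∀ A B σ : ℝ, σ < 4 / 3 → ∃ w, A * Real.exp (B * ‖w‖ ^ σ) < ‖G w‖)
    (htail : ∀ x : ℝ, 0 ≤ x → ∃ a b : ℝ, G ((-x : ℝ) : ℂ) = (a : ℂ) ∧ G (x : ℂ) = (b : ℂ) ∧
        c * Real.exp (-(C * x ^ (4 / 3 : ℝ))) ≤ a ∧ a ≤ C * Real.exp (-(c * x ^ (4 / 3 : ℝ))) ∧
        c * Real.exp (-(C * x ^ (4 / 3 : ℝ))) ≤ 1 - b ∧
        1 - b ≤ C * Real.exp (-(c * x ^ (4 / 3 : ℝ))))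
    (hmono : ∀ x y : ℝ, x ≤ y → (G (x : ℂ)).re ≤ (G (y : ℂ)).re) :
    ∃ g : ℝ → ℝ, (∀ x : ℝ, G (x : ℂ) = (g x : ℂ)) ∧ StrictMono g ∧
      Set.range g = Set.Ioo 0 1 ∧ ∀ x : ℝ, 0 ≤ x →
        c * Real.exp (-(C * x ^ (4 / 3 : ℝ))) ≤ g (-x) ∧
        g (-x) ≤ C * Real.exp (-(c * x ^ (4 / 3 : ℝ))) := by
  obtain ⟨g, hg⟩ : ∃ g : ℝ → ℝ, g = fun x : ℝ => (G (x : ℂ)).re := ⟨_, rfl⟩
  have hGr : ∀ x : ℝ, G (x : ℂ) = (g x : ℂ) := by
    intro x
    rcases le_total 0 x with h | h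
    · obtain ⟨a, b, -, hb, -⟩ := htail x h
      rw [hg]
      simp only
      rw [hb]
      simp
    · obtain ⟨a, b, ha, -⟩ := htail (-x) (by linarith)
      rw [neg_neg] at ha
      rw [hg]
      simp only
      rw [ha]
      simp
  have hmon : Monotone g := by
    intro x y hxy
    rw [hg]
    exact hmono x y hxy
  have hstrict : StrictMono g := by
    intro x y hxy
    refine lt_of_le_of_ne (hmon hxy.le) (fun he => ?_)
    refine not_const hd hgrow hxy (fun t h1 h2 => ?_)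
    rw [hGr, hGr]
    have h3 := hmon h1
    have h4 := hmon h2
    have : g t = g x := by linarith
    rw [this]
  have hsum : ∀ x : ℝ, g x + g (-x) = 1 := by
    intro x
    have h := hdual (x : ℂ)
    rw [← Complex.ofReal_neg, hGr, hGr] at h
    exact_mod_cast h
  have hlow : ∀ x : ℝ, 0 ≤ x → c * Real.exp (-(C * x ^ (4 / 3 : ℝ))) ≤ g (-x) ∧
      g (-x) ≤ C * Real.exp (-(c * x ^ (4 / 3 : ℝ))) := by
    intro x hx
    obtain ⟨a, b, ha, -, h1, h2, -⟩ := htail x hx
    rw [hGr] at ha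
    have : g (-x) = a := by exact_mod_cast ha
    rw [this]
    exact ⟨h1, h2⟩
  have hposn : ∀ x : ℝ, 0 ≤ x → 0 < g (-x) := fun x hx =>
    lt_of_lt_of_le (by positivity) (hlow x hx).1
  have hpos : ∀ x : ℝ, 0 < g x := by
    intro x
    rcases le_total 0 x with h | h
    · exact (hposn x h).trans_le (hmon (by linarith))
    · have := hposn (-x) (by linarith)
      rwa [neg_neg] at this
  have hlt : ∀ x : ℝ, g x < 1 := by
    intro x
    have h1 := hpos (-x)
    have h2 := hsum x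
    linarith
  have hcont : Continuous g := by
    rw [hg]
    exact Complex.continuous_re.comp (hd.continuous.comp Complex.continuous_ofReal)
  have hsmall : ∀ u : ℝ, 0 < u → ∃ x : ℝ, 0 ≤ x ∧ g (-x) ≤ u := by
    intro u hu
    have h1 : Tendsto (fun x : ℝ => C * Real.exp (-(c * x ^ (4 / 3 : ℝ)))) atTop (𝓝 (C * 0)) := by
      apply Tendsto.const_mul
      apply Real.tendsto_exp_atBot.comp
      apply tendsto_neg_atTop_atBot.comp
      exact (tendsto_rpow_atTop (by norm_num)).const_mul_atTop hc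
    rw [mul_zero] at h1
    have h2 := (h1.eventually (gt_mem_nhds hu)).and (eventually_ge_atTop (0 : ℝ))
    obtain ⟨x, hx1, hx2⟩ := h2.exists
    exact ⟨x, hx2, (hlow x hx2).2.trans hx1.le⟩
  refine ⟨g, hGr, hstrict, ?_, hlow⟩
  apply Set.Subset.antisymm
  · rintro _ ⟨x, rfl⟩
    exact ⟨hpos x, hlt x⟩
  · rintro u ⟨hu0, hu1⟩
    obtain ⟨x, -, hx⟩ := hsmall u hu0
    obtain ⟨y, -, hy⟩ := hsmall (1 - u) (by linarith)
    refine mem_range_of_exists_le_of_exists_ge hcont ⟨-x, hx⟩ ⟨y, ?_⟩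
    have := hsum y
    linarith

end Pool.Agent.X135.NL
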